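import Pool.Agent.K1H2.UB.Stm

/-!
# First order expansion of the inverse of the norm
-/

set_option autoImplicit false

namespace Pool.Agent.K1H21.UB

open Finset Pool.Agent.K1H53.BI Pool.Agent.K1H2.UB

lemma q_nn (w : Fin 3 → ℝ) : 0 ≤ q w := Finset.sum_nonneg fun i _ => sq_nonneg _

lemma len_sq (w : Fin 3 → ℝ) : len w ^ 2 = q w := Real.sq_sqrt (q_nn w)

lemma q_add (w : Fin 3 → ℝ) (e : Fin 3 × Bool) :
    q (w + rd e) = q w + 2 * ((if e.2 then 1 else -1) * w e.1) + 1 := by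
  obtain ⟨a, b⟩ := e
  fin_cases a <;> cases b <;> simp [q, rd, Fin.sum_univ_three, Pi.single_apply] <;> ring

lemma coord_le (w : Fin 3 → ℝ) (i : Fin 3) : w i ^ 2 ≤ q w :=
  Finset.single_le_sum (f := fun i => w i ^ 2) (fun _ _ => sq_nonneg _) (Finset.mem_univ i)

theorem t_TAY : S_TAY := by
  refine ⟨6, by norm_num, ?_⟩
  intro w e hs
  have hq := len_sq w
  have hq' := len_sq (w + rd e)
  rw [q_add, ← hq] at hq'
  have hr0 : 0 ≤ len (w + rd e) := Real.sqrt_nonneg _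
  have ht2 : ((if e.2 then 1 else -1) * w e.1 : ℝ) ^ 2 ≤ len w ^ 2 := by
    rw [hq]
    refine le_trans (le_of_eq ?_) (coord_le w e.1)
    split_ifs <;> ring
  generalize hT : ((if e.2 then 1 else -1) * w e.1 : ℝ) = t at *
  generalize len (w + rd e) = r at *
  generalize len w = s at *
  have hs0 : 0 < s := by linarith
  have hts : |t| ≤ s := abs_le_of_sq_le_sq ht2 hs0.le
  obtain ⟨ht1, ht3⟩ := abs_le.1 hts
  have hr1 : s - 1 ≤ r := by nlinarith
  have hr3 : r ≤ s + 1 := by nlinarith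
  have hr : s / 2 ≤ r := by linarith
  have hrp : 0 < r := by linarith
  have h1 : 1 / r - 1 / s + t / s ^ 3 =
      (-s ^ 2 + t * ((r - s) * (r + 2 * s))) / (s ^ 3 * (r * (r + s))) := by
    have h2 : 2 * t = r ^ 2 - s ^ 2 - 1 := by linarith
    have h3 : t = (r ^ 2 - s ^ 2 - 1) / 2 := by linarith
    rw [h3]
    field_simp
    ring
  rw [h1, abs_div, abs_of_pos (by positivity : 0 < s ^ 3 * (r * (r + s))),
    div_le_div_iff₀ (by positivity) (by positivity)]
  have h4 : |-s ^ 2 + t * ((r - s) * (r + 2 * s))| ≤ s ^ 2 + s * (1 * (r + 2 * s)) := by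
    refine (abs_add_le _ _).trans ?_
    rw [abs_neg, abs_of_nonneg (sq_nonneg s), abs_mul, abs_mul,
      abs_of_nonneg (by positivity : 0 ≤ r + 2 * s)]
    have h5 : |r - s| ≤ 1 := abs_le.2 ⟨by linarith, by linarith⟩
    gcongr
  have h6 : s ^ 2 + s * (1 * (r + 2 * s)) ≤ 6 * (r * (r + s)) := by nlinarith
  have h7 : 0 ≤ s ^ 3 := by positivity
  calc |-s ^ 2 + t * ((r - s) * (r + 2 * s))| * s ^ 3 ≤ (6 * (r * (r + s))) * s ^ 3 :=
        mul_le_mul_of_nonneg_right (h4.trans h6) h7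
    _ = 6 * (s ^ 3 * (r * (r + s))) := by ring

end Pool.Agent.K1H21.UB
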